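import Pool.Agent.Lib.MP_80ff63_lc.Defs
import Pool.Agent.Lib.MP_80ff63_lc.Main

namespace Pool.Agent.Results.MP_80ff63_lc.PolyDelay

open Pool.Agent.Lib.MP_80ff63_lc

/-- For every alphabet size `k` one program of the logarithmic cost random access machine lists,
with polynomial delay, exactly one word of each orbit of the group generated by the input
permutations. -/
theorem result (k : ℕ) (hk : 2 ≤ k) :
    ∃ (P : List Instr) (p : Polynomial ℕ), ∀ (m : ℕ) (gens : List (Equiv.Perm (Fin m))), 1 ≤ m →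
      ∀ x : List ℕ, x = m :: gens.flatMap (fun g => List.ofFn fun i => (g i : ℕ)) →
      ∃ (T : ℕ) (ws : List (Fin m → Fin k)),
        P[(conf P x T).pc]? = none ∧
        (conf P x T).out = ws.map (fun w => Nat.ofDigits k (List.ofFn fun i => (w i : ℕ))) ∧
        (∀ α : Fin m → Fin k, ∃! n : Fin ws.length,
          ∃ g ∈ Subgroup.closure {g | g ∈ gens}, ∀ i, ws.get n (g i) = α i) ∧
        ∀ s t, s ≤ t → t < T → (conf P x t).out = (conf P x s).out →
          ∑ j ∈ Finset.Icc s t, cost P (conf P x j) ≤ p.eval (m + gens.length) := by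
  obtain ⟨P, p, h⟩ := main k (by omega)
  refine ⟨P, p, fun m gens hm x hx => ?_⟩
  obtain ⟨ws, h1, h2, h3⟩ := h m gens hm
  obtain ⟨T, t1, t2, t3⟩ := h1.final
  subst hx
  refine ⟨T, ws, t1, t2, fun α => ?_, t3⟩
  obtain ⟨g, hg, h4⟩ := h3 α
  obtain ⟨n, hn⟩ := List.get_of_mem h4
  have key : ∀ (n' : Fin ws.length) (g' : Equiv.Perm (Fin m)), (∀ i, ws.get n' (g' i) = α i) →
      ws.get n' = wact g' α := fun n' g' e => by
    funext j
    obtain ⟨i, rfl⟩ := g'.surjective j
    rw [e, wact_apply]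
  refine ⟨n, ⟨g, hg, fun i => by rw [hn, wact_apply]⟩, ?_⟩
  rintro n' ⟨g', hg', e⟩
  have e' := key n' g' e
  by_contra hne
  rcases lt_or_gt_of_ne hne with hlt | hlt
  · refine List.pairwise_iff_get.1 h2 n' n hlt (g * g'⁻¹)
      ((gen gens).mul_mem hg ((gen gens).inv_mem hg')) ?_
    rw [e', hn, wact_mul, wact_inv_wact]
  · refine List.pairwise_iff_get.1 h2 n n' hlt (g' * g⁻¹)
      ((gen gens).mul_mem hg' ((gen gens).inv_mem hg)) ?_
    rw [e', hn, wact_mul, wact_inv_wact]

end Pool.Agent.Results.MP_80ff63_lc.PolyDelay
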